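import Mathlib
import Pool.Agent.Helper60.RandomPisotDefs
import Pool.Agent.Helper60.RandomPisotProof

/-!
# A minimal subsystem of a random Pisot subshift that is not a pure point system

The definitions used in the statement are in `Pool/Agent/Helper60/RandomPisotDefs.lean`.
-/

set_option autoImplicit false

open Pool.Agent.Helper60.RandomPisot

namespace Pool.Agent.Results.MP_d44141_an.NonPurePointMinimal

/-- **Q1 is false.**  There are a compatible irreducible Pisot random substitution `θ` (on two
letters) and a minimal subsystem `Y` of its subshift `X_θ` which is not a pure point system. -/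
theorem result : ∃ θ : RandomSubstitution 2, θ.Compatible ∧ θ.IrreduciblePisot ∧
    ∃ Y : Set (ℤ → Fin 2), IsMinimalSubsystem θ.subshift Y ∧ ¬ IsPurePointSystem Y := by
  refine ⟨noble, noble_compatible, noble_pisot, Y₀, Y₀_isMinimalSubsystem, ?_⟩
  intro hpp
  obtain ⟨μ, hμ, hinv, hY⟩ := exists_measure
  exact not_hasPurePointSpectrum hinv hY (hpp μ hμ hinv hY)

end Pool.Agent.Results.MP_d44141_an.NonPurePointMinimal
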